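import Pool.Agent.R299.PI.Loops

open Set Filter Topology

namespace Pool.Agent.R299.PI

/-- The phase space: the product of the base circle and the unit circle. -/
abbrev E := B × Circle

namespace Lp

/-- The conjugate of the rotation of the base by h. -/
def fwd (α : B) (h : Lp) : C(E, E) :=
  ⟨fun p => (p.1 + α, h.f (p.1 + α) (h.g p.1 p.2)), by
    have h1 : Continuous fun p : E => (p.1 + α, h.g p.1 p.2) :=
      (continuous_fst.add continuous_const).prodMk h.cg
    exact (continuous_fst.add continuous_const).prodMk (h.cf.comp h1)⟩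

/-- The inverse map. -/
def bwd (α : B) (h : Lp) : C(E, E) :=
  ⟨fun p => (p.1 - α, h.f (p.1 - α) (h.g p.1 p.2)), by
    have h1 : Continuous fun p : E => (p.1 - α, h.g p.1 p.2) :=
      (continuous_fst.sub continuous_const).prodMk h.cg
    exact (continuous_fst.sub continuous_const).prodMk (h.cf.comp h1)⟩

lemma fwd_apply (α : B) (h : Lp) (p : E) :
    h.fwd α p = (p.1 + α, h.f (p.1 + α) (h.g p.1 p.2)) := rfl

lemma bwd_apply (α : B) (h : Lp) (p : E) :
    h.bwd α p = (p.1 - α, h.f (p.1 - α) (h.g p.1 p.2)) := rfl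

lemma fwd_iter (α : B) (h : Lp) (m : ℕ) (p : E) :
    (h.fwd α)^[m] p = (p.1 + m • α, h.f (p.1 + m • α) (h.g p.1 p.2)) := by
  induction m with
  | zero => simp [h.fg]
  | succ m ih =>
    rw [Function.iterate_succ_apply', ih, fwd_apply]
    simp only [h.gf, succ_nsmul, add_assoc]

/-- Composition. -/
def comp (h γ : Lp) : Lp where
  f s z := h.f s (γ.f s z)
  g s z := γ.g s (h.g s z)
  cf := h.cf.comp (continuous_fst.prodMk γ.cf)
  cg := γ.cg.comp (continuous_fst.prodMk h.cg)
  fg s z := by rw [γ.fg, h.fg]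
  gf s z := by rw [h.gf, γ.gf]

/-- Pull back by s ↦ M s. -/
def pull (γ : Lp) (M : ℕ) : Lp where
  f s z := γ.f (M • s) z
  g s z := γ.g (M • s) z
  cf := γ.cf.comp (((continuous_nsmul M).comp continuous_fst).prodMk continuous_snd)
  cg := γ.cg.comp (((continuous_nsmul M).comp continuous_fst).prodMk continuous_snd)
  fg _ z := γ.fg _ z
  gf _ z := γ.gf _ z

/-- The identity loop. -/
def one : Lp where
  f _ z := z
  g _ z := z
  cf := continuous_snd
  cg := continuous_snd
  fg _ _ := rfl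
  gf _ _ := rfl

lemma unif (h : Lp) {ε : ℝ} (hε : 0 < ε) : ∃ δ > 0, ∀ p q : E, dist p q < δ →
    dist (h.f p.1 p.2) (h.f q.1 q.2) < ε := by
  have h1 := CompactSpace.uniformContinuous_of_continuous h.cf
  obtain ⟨δ, hδ, h2⟩ := Metric.uniformContinuous_iff.1 h1 ε hε
  exact ⟨δ, hδ, fun p q hpq => h2 hpq⟩

end Lp

/-- The pair of maps attached to a loop. -/
def pr (α : B) (h : Lp) : C(E, E) × C(E, E) := (h.fwd α, h.bwd α)

/-- The closure of the set of conjugates. -/
def FF (α : B) : Set (C(E, E) × C(E, E)) := closure (range (pr α))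

lemma approx (α : B) (h γ : Lp) {ε : ℝ} (hε : 0 < ε) : ∃ δ > 0, ∀ M : ℕ, ‖M • α‖ < δ →
    dist (pr α (h.comp (γ.pull M))) (pr α h) < ε := by
  obtain ⟨ε', hε', h1⟩ := h.unif hε
  obtain ⟨δ, hδ, h2⟩ := γ.unif hε'
  refine ⟨δ, hδ, fun M hM => ?_⟩
  have key : ∀ (β : B), ‖M • β‖ < δ → ∀ p : E,
      dist (h.f (p.1 + β) (γ.f (M • (p.1 + β)) (γ.g (M • p.1) (h.g p.1 p.2))))
        (h.f (p.1 + β) (h.g p.1 p.2)) < ε := by
    intro β hβ p
    set κ := γ.g (M • p.1) (h.g p.1 p.2) with hκ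
    have h3 : h.g p.1 p.2 = γ.f (M • p.1) κ := by rw [hκ, γ.fg]
    rw [h3]
    have h4 : dist (γ.f (M • (p.1 + β)) κ) (γ.f (M • p.1) κ) < ε' := by
      refine h2 (M • (p.1 + β), κ) (M • p.1, κ) ?_
      rw [Prod.dist_eq, dist_self, smul_add, dist_eq_norm]
      simp only [add_sub_cancel_left]
      exact max_lt hβ hδ
    refine h1 (p.1 + β, _) (p.1 + β, _) ?_
    rw [Prod.dist_eq, dist_self]
    exact max_lt hε' h4
  rw [Prod.dist_eq]
  refine max_lt ?_ ?_
  · rw [pr, pr, ContinuousMap.dist_lt_iff hε]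
    intro p
    rw [Prod.dist_eq]
    refine max_lt ?_ ?_
    · show dist (p.1 + α) (p.1 + α) < ε
      rwa [dist_self]
    · exact key α hM p
  · rw [pr, pr, ContinuousMap.dist_lt_iff hε]
    intro p
    rw [Prod.dist_eq]
    refine max_lt ?_ ?_
    · show dist (p.1 - α) (p.1 - α) < ε
      rwa [dist_self]
    · have := key (-α) (by rwa [smul_neg, norm_neg]) p
      simp only [← sub_eq_add_neg] at this
      exact this

/-! ### The open sets -/

lemma cont_iter (m : ℕ) : Continuous fun p : (C(E, E) × C(E, E)) × E => (p.1.1)^[m] p.2 := by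
  induction m with
  | zero => exact continuous_snd
  | succ m ih =>
    simp only [Function.iterate_succ_apply']
    exact (continuous_fst.fst).eval ih

lemma isOpen_forall_exists {K Y : Type*} [TopologicalSpace K] [CompactSpace K]
    [TopologicalSpace Y] {S : Set K} (hS : IsClosed S) (P : ℕ → Set (Y × K))
    (hP : ∀ m, IsOpen (P m)) : IsOpen {F : Y | ∀ q ∈ S, ∃ m, (F, q) ∈ P m} := by
  rw [isOpen_iff_mem_nhds]
  intro F hF
  refine hS.isCompact.eventually_forall_of_forall_eventually fun q hq => ?_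
  obtain ⟨m, hm⟩ := hF q hq
  filter_upwards [(hP m).mem_nhds hm] with z hz
  exact ⟨m, hz⟩

/-- Pairs in a common fibre come ε-close. -/
def UP (ε : ℝ) : Set (C(E, E) × C(E, E)) :=
  {F | ∀ q ∈ {q : E × E | q.1.1 = q.2.1}, ∃ m : ℕ, (F, q) ∈
    {r : (C(E, E) × C(E, E)) × (E × E) | dist ((r.1.1)^[m] r.2.1) ((r.1.1)^[m] r.2.2) < ε}}

/-- Orbits under the product of the map and its square are ε-dense in the saturated sets. -/
def UD (ε : ℝ) : Set (C(E, E) × C(E, E)) :=
  {F | ∀ q ∈ {q : (E × E) × (E × E) | q.2.2.1 - q.1.2.1 = 2 • (q.2.1.1 - q.1.1.1)},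
    ∃ m : ℕ, (F, q) ∈ {r : (C(E, E) × C(E, E)) × ((E × E) × (E × E)) |
      dist ((r.1.1)^[m] r.2.1.1) r.2.2.1 < ε ∧ dist ((r.1.1)^[2 * m] r.2.1.2) r.2.2.2 < ε}}

lemma isOpen_UP (ε : ℝ) : IsOpen (UP ε) := by
  refine isOpen_forall_exists ?_ _ fun m => ?_
  · exact isClosed_eq (by fun_prop) (by fun_prop)
  · refine isOpen_lt (Continuous.dist ?_ ?_) continuous_const
    · exact (cont_iter m).comp (continuous_fst.prodMk continuous_snd.fst)
    · exact (cont_iter m).comp (continuous_fst.prodMk continuous_snd.snd)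

lemma isOpen_UD (ε : ℝ) : IsOpen (UD ε) := by
  refine isOpen_forall_exists ?_ _ fun m => ?_
  · exact isClosed_eq (by fun_prop) (by fun_prop)
  · refine IsOpen.inter (isOpen_lt (Continuous.dist ?_ ?_) continuous_const)
      (isOpen_lt (Continuous.dist ?_ ?_) continuous_const)
    · exact (cont_iter m).comp (continuous_fst.prodMk continuous_snd.fst.fst)
    · exact continuous_snd.snd.fst
    · exact (cont_iter (2 * m)).comp (continuous_fst.prodMk continuous_snd.fst.snd)
    · exact continuous_snd.snd.snd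

/-! ### Arithmetic of the rotation -/

lemma exists_M (α : B) {δ : ℝ} (hδ : 0 < δ) (N : ℕ) : ∃ M : ℕ, N ≤ M ∧ ‖M • α‖ < δ := by
  have h1 := (mapClusterPt_zero_atTop_nsmul α).frequently (Metric.ball_mem_nhds (0 : B) hδ)
  obtain ⟨M, hM, hN⟩ := (h1.and_eventually (eventually_ge_atTop N)).exists
  exact ⟨M, hN, by simpa [dist_eq_norm] using hM⟩

lemma dense_mul {a : ℝ} (ha : Irrational a) {M : ℕ} (hM : 0 < M) :
    DenseRange (fun m : ℕ => m • (M • (a : B))) := by
  have h1 : (M • (a : B)) = ((M * a : ℝ) : B) := by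
    rw [← AddCircle.coe_nsmul, nsmul_eq_mul]
  rw [h1, ← denseRange_zsmul_iff_nsmul, AddCircle.denseRange_zsmul_coe_iff, div_one]
  exact ha.natCast_mul hM.ne'

end Pool.Agent.R299.PI
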