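import Mathlib

open Set Filter Topology
open scoped Real

namespace Pool.Agent.R299.PI

/-- The base circle R/Z. -/
abbrev B := AddCircle (1 : ℝ)

/-- A continuous loop of homeomorphisms of the unit circle. -/
structure Lp where
  f : B → Circle → Circle
  g : B → Circle → Circle
  cf : Continuous fun p : B × Circle => f p.1 p.2
  cg : Continuous fun p : B × Circle => g p.1 p.2
  fg : ∀ s z, f s (g s z) = z
  gf : ∀ s z, g s (f s z) = z

/-! ### Moebius maps -/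

lemma norm_mob (ρ : ℝ) (z : Circle) : ‖(z : ℂ) + ρ‖ = ‖1 + ρ * (z : ℂ)‖ := by
  have h1 : (starRingEnd ℂ) (z : ℂ) * z = 1 := by
    rw [mul_comm, Complex.mul_conj, Circle.normSq_coe]; simp
  have h2 : (starRingEnd ℂ) (z : ℂ) * (1 + ρ * (z : ℂ)) = (starRingEnd ℂ) ((z : ℂ) + ρ) := by
    rw [map_add, Complex.conj_ofReal]
    linear_combination (ρ : ℂ) * h1
  have h3 : ‖(starRingEnd ℂ) (z : ℂ)‖ = 1 := by rw [Complex.norm_conj, Circle.norm_coe]
  rw [← Complex.norm_conj ((z : ℂ) + ρ), ← h2, norm_mul, h3, one_mul]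

lemma den_ne {ρ : ℝ} (hρ : |ρ| < 1) (z : Circle) : (1 : ℂ) + ρ * z ≠ 0 := by
  intro h
  have h1 : (ρ : ℂ) * z = -1 := by linear_combination h
  have h2 : ‖(ρ : ℂ) * z‖ = 1 := by rw [h1]; simp
  rw [norm_mul, Circle.norm_coe, mul_one, Complex.norm_real, Real.norm_eq_abs] at h2
  linarith

/-- z ↦ (z+ρ)/(1+ρ z) -/
noncomputable def mob (ρ : ℝ) (hρ : |ρ| < 1) (z : Circle) : Circle :=
  ⟨((z : ℂ) + ρ) / (1 + ρ * z), mem_sphere_zero_iff_norm.2 <| by
    rw [norm_div, norm_mob, div_self]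
    exact norm_ne_zero_iff.2 (den_ne hρ z)⟩

lemma mob_coe (ρ : ℝ) (hρ : |ρ| < 1) (z : Circle) :
    (mob ρ hρ z : ℂ) = ((z : ℂ) + ρ) / (1 + ρ * z) := rfl

lemma continuous_mob (ρ : ℝ) (hρ : |ρ| < 1) : Continuous (mob ρ hρ) := by
  refine Continuous.subtype_mk ?_ _
  refine Continuous.div (by fun_prop) (by fun_prop) (den_ne hρ)

lemma mob_neg (ρ : ℝ) (hρ : |ρ| < 1) (hρ' : |(-ρ)| < 1) (z : Circle) :
    mob (-ρ) hρ' (mob ρ hρ z) = z := by
  apply Circle.ext
  rw [mob_coe, mob_coe]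
  have h1 := den_ne hρ z
  have h2 : (1 : ℂ) - ρ ^ 2 ≠ 0 := by
    intro h
    have h3 : ((1 - ρ ^ 2 : ℝ) : ℂ) = 0 := by push_cast; exact h
    have h4 : (1 - ρ ^ 2 : ℝ) = 0 := by exact_mod_cast h3
    have h5 : ρ ^ 2 < 1 := by rw [← sq_abs]; nlinarith [abs_nonneg ρ]
    linarith
  have h3 : (1 : ℂ) + ((-ρ : ℝ) : ℂ) * (((z : ℂ) + ρ) / (1 + ρ * z)) ≠ 0 := by
    have := den_ne hρ' (mob ρ hρ z)
    rwa [mob_coe] at this
  rw [div_eq_iff h3]
  have hq : (((z : ℂ) + ρ) / (1 + ρ * z)) * (1 + ρ * z) = (z : ℂ) + ρ := div_mul_cancel₀ _ h1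
  refine mul_right_cancel₀ h1 ?_
  push_cast
  linear_combination (1 + (z : ℂ) * ρ) * hq

/-- Contraction away from -1. -/
lemma mob_near {ρ : ℝ} (hρ : |ρ| < 1) (h34 : 3 / 4 ≤ ρ) (z : Circle) (hz : 1 / 2 ≤ ‖(z : ℂ) + 1‖) :
    ‖(mob ρ hρ z : ℂ) - 1‖ ≤ 8 * (1 - ρ) := by
  have hρ1 : ρ < 1 := (abs_lt.1 hρ).2
  have h1 := den_ne hρ z
  have h2 : (mob ρ hρ z : ℂ) - 1 = ((z : ℂ) - 1) * ((1 - ρ : ℝ) : ℂ) / (1 + ρ * z) := by
    rw [mob_coe, eq_div_iff h1]
    have hq : (((z : ℂ) + ρ) / (1 + ρ * z)) * (1 + ρ * z) = (z : ℂ) + ρ := div_mul_cancel₀ _ h1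
    push_cast
    linear_combination hq
  have h3 : 1 / 4 ≤ ‖(1 : ℂ) + ρ * z‖ := by
    have h4 : (1 : ℂ) + ρ * z = ((z : ℂ) + 1) - ((1 - ρ : ℝ) : ℂ) * z := by
      push_cast; ring
    rw [h4]
    have h5 := norm_sub_norm_le ((z : ℂ) + 1) (((1 - ρ : ℝ) : ℂ) * z)
    rw [norm_mul, Circle.norm_coe, mul_one, Complex.norm_real, Real.norm_eq_abs,
      abs_of_pos (by linarith : (0 : ℝ) < 1 - ρ)] at h5
    linarith
  have h6 : ‖(z : ℂ) - 1‖ ≤ 2 := by
    calc ‖(z : ℂ) - 1‖ ≤ ‖(z : ℂ)‖ + ‖(1 : ℂ)‖ := norm_sub_le _ _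
      _ = 2 := by rw [Circle.norm_coe, norm_one]; norm_num
  rw [h2, norm_div, norm_mul, Complex.norm_real, Real.norm_eq_abs,
    abs_of_pos (by linarith : (0 : ℝ) < 1 - ρ), div_le_iff₀ (by linarith)]
  nlinarith [norm_nonneg ((z : ℂ) - 1)]

/-- Every pair of points of the circle can be rotated away from -1. -/
lemma exists_rot (κ κ' : Circle) : ∃ u : Circle, 1 / 2 ≤ ‖((u⁻¹ * κ : Circle) : ℂ) + 1‖ ∧
    1 / 2 ≤ ‖((u⁻¹ * κ' : Circle) : ℂ) + 1‖ := by
  by_cases h : 1 / 2 ≤ ‖((κ⁻¹ * κ' : Circle) : ℂ) + 1‖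
  · refine ⟨κ, ?_, h⟩
    rw [inv_mul_cancel]
    norm_num [Circle.coe_one]
  · let I' : Circle := Circle.exp (π / 2)
    have hI : (I' : ℂ) = Complex.I := by
      simp only [I', Circle.coe_exp]
      push_cast
      exact Complex.exp_pi_div_two_mul_I
    refine ⟨I' * κ, ?_, ?_⟩
    · have h1 : (((I' * κ)⁻¹ * κ : Circle) : ℂ) = -Complex.I := by
        have : (I' * κ)⁻¹ * κ = I'⁻¹ := by
          rw [mul_inv, mul_assoc, inv_mul_cancel, mul_one]
        rw [this, Circle.coe_inv, hI, Complex.inv_I]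
      rw [h1]
      have h2 : ‖-Complex.I + 1‖ ^ 2 = 2 := by
        rw [← Complex.normSq_eq_norm_sq, Complex.normSq_apply]
        simp
        norm_num
      nlinarith [norm_nonneg (-Complex.I + 1)]
    · have h1 : (((I' * κ)⁻¹ * κ' : Circle) : ℂ) = -Complex.I * ((κ⁻¹ * κ' : Circle) : ℂ) := by
        have : (I' * κ)⁻¹ * κ' = I'⁻¹ * (κ⁻¹ * κ') := by rw [mul_inv, mul_assoc]
        rw [this, Circle.coe_mul, Circle.coe_inv, hI, Complex.inv_I]
      rw [not_le] at h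
      set w : ℂ := ((κ⁻¹ * κ' : Circle) : ℂ) + 1 with hw
      have h2 : ((κ⁻¹ * κ' : Circle) : ℂ) = w - 1 := by rw [hw]; ring
      rw [h1, h2]
      have h3 : -Complex.I * (w - 1) + 1 = (Complex.I + 1) - Complex.I * w := by ring
      rw [h3]
      have h4 := norm_sub_norm_le (Complex.I + 1) (Complex.I * w)
      rw [norm_mul, Complex.norm_I, one_mul] at h4
      have h5 : ‖Complex.I + 1‖ ^ 2 = 2 := by
        rw [← Complex.normSq_eq_norm_sq, Complex.normSq_apply]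
        simp
        norm_num
      have h6 : 1 ≤ ‖Complex.I + 1‖ := by nlinarith [norm_nonneg (Complex.I + 1)]
      linarith

lemma circle_dist (a b : Circle) : dist a b = ‖(a : ℂ) - (b : ℂ)‖ := by
  rw [← Complex.dist_eq]; rfl

lemma dist_circle_mul (u a b : Circle) : dist (u * a) (u * b) = dist a b := by
  rw [circle_dist, circle_dist, Circle.coe_mul, Circle.coe_mul, ← mul_sub, norm_mul, Circle.norm_coe, one_mul]

/-- The first kind of loop: it contracts every pair of points at some time. -/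
theorem exists_loopP {δ : ℝ} (hδ : 0 < δ) : ∃ L : Lp, ∀ κ κ' : Circle, ∃ s : B,
    dist (L.f s κ) (L.f s κ') < δ := by
  obtain ⟨ρ, hρ34, hρ1, hρδ⟩ : ∃ ρ : ℝ, 3 / 4 ≤ ρ ∧ ρ < 1 ∧ 16 * (1 - ρ) < δ := by
    refine ⟨max (3 / 4) (1 - δ / 32), le_max_left _ _, max_lt (by norm_num) (by linarith), ?_⟩
    have := le_max_right (3 / 4 : ℝ) (1 - δ / 32)
    linarith
  have hρ : |ρ| < 1 := abs_lt.2 ⟨by linarith, hρ1⟩
  have hρ' : |(-ρ)| < 1 := by rwa [abs_neg]
  have hρ'' : |(-(-ρ))| < 1 := by rwa [neg_neg]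
  have he : Continuous (AddCircle.toCircle : B → Circle) := AddCircle.continuous_toCircle
  have hmn : ∀ z, mob ρ hρ (mob (-ρ) hρ' z) = z := by
    intro z
    have := mob_neg (-ρ) hρ' hρ'' z
    simpa only [neg_neg] using this
  refine ⟨⟨fun s z => AddCircle.toCircle s * mob ρ hρ ((AddCircle.toCircle s)⁻¹ * z),
    fun s z => AddCircle.toCircle s * mob (-ρ) hρ' ((AddCircle.toCircle s)⁻¹ * z),
    ?_, ?_, ?_, ?_⟩, ?_⟩
  · exact (he.comp continuous_fst).mul ((continuous_mob ρ hρ).comp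
      ((he.comp continuous_fst).inv.mul continuous_snd))
  · exact (he.comp continuous_fst).mul ((continuous_mob (-ρ) hρ').comp
      ((he.comp continuous_fst).inv.mul continuous_snd))
  · intro s z
    simp only [inv_mul_cancel_left]
    rw [hmn, mul_inv_cancel_left]
  · intro s z
    simp only [inv_mul_cancel_left]
    rw [mob_neg, mul_inv_cancel_left]
  · intro κ κ'
    obtain ⟨u, hu1, hu2⟩ := exists_rot κ κ'
    obtain ⟨s, hs⟩ := (AddCircle.homeomorphCircle (T := 1) one_ne_zero).surjective u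
    rw [AddCircle.homeomorphCircle_apply] at hs
    refine ⟨s, ?_⟩
    simp only [hs]
    rw [dist_circle_mul, circle_dist]
    have h1 := mob_near hρ hρ34 _ hu1
    have h2 := mob_near hρ hρ34 _ hu2
    calc ‖(mob ρ hρ (u⁻¹ * κ) : ℂ) - (mob ρ hρ (u⁻¹ * κ') : ℂ)‖
        = ‖((mob ρ hρ (u⁻¹ * κ) : ℂ) - 1) - ((mob ρ hρ (u⁻¹ * κ') : ℂ) - 1)‖ := by ring_nf
      _ ≤ ‖(mob ρ hρ (u⁻¹ * κ) : ℂ) - 1‖ + ‖(mob ρ hρ (u⁻¹ * κ') : ℂ) - 1‖ := norm_sub_le _ _
      _ < δ := by linarith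

lemma exp_dist (a b : ℝ) : ‖(Circle.exp a : ℂ) - (Circle.exp b : ℂ)‖ ≤ |a - b| := by
  have h1 : (Circle.exp a : ℂ) - (Circle.exp b : ℂ) =
      (Circle.exp b : ℂ) * (Complex.exp (Complex.I * ((a - b : ℝ) : ℂ)) - 1) := by
    rw [mul_sub, mul_one, Circle.coe_exp, Circle.coe_exp, ← Complex.exp_add]
    congr 2
    push_cast
    ring
  rw [h1, norm_mul, Circle.norm_coe, one_mul]
  exact Real.norm_exp_I_mul_ofReal_sub_one_le

/-! ### The staircase loop -/

/-- The staircase: constant on [i, i+2/3], slope 3 on [i+2/3, i+1]. -/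
noncomputable def stair (x : ℝ) : ℝ := ⌊x⌋ + max 0 (3 * Int.fract x - 2)

lemma stair_rest (i : ℤ) {x : ℝ} (h1 : (i : ℝ) ≤ x) (h2 : x ≤ i + 2 / 3) : stair x = i := by
  have h3 : ⌊x⌋ = i := Int.floor_eq_iff.2 ⟨h1, by linarith⟩
  have h4 : Int.fract x = x - i := by rw [← h3]; rfl
  rw [stair, h3, h4, max_eq_left (by linarith), add_zero]

lemma stair_sweep (i : ℤ) {x : ℝ} (h1 : (i : ℝ) + 2 / 3 ≤ x) (h2 : x ≤ i + 1) :
    stair x = i + (3 * (x - i) - 2) := by
  rcases h2.lt_or_eq with h2 | h2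
  · have h3 : ⌊x⌋ = i := Int.floor_eq_iff.2 ⟨by linarith, h2⟩
    have h4 : Int.fract x = x - i := by rw [← h3]; rfl
    rw [stair, h3, h4, max_eq_right (by linarith)]
  · rw [stair_rest (i + 1) (by push_cast; linarith) (by push_cast; linarith), h2]
    push_cast
    ring

lemma stair_add_int (x : ℝ) (k : ℤ) : stair (x + k) = stair x + k := by
  unfold stair
  rw [Int.floor_add_intCast, Int.fract_add_intCast]
  push_cast
  ring

lemma continuous_stair : Continuous stair := by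
  have h1 : ContinuousOn (fun t : ℝ => t - max 0 (3 * t - 2)) (Icc 0 1) := by fun_prop
  have h2 : Continuous ((fun t : ℝ => t - max 0 (3 * t - 2)) ∘ Int.fract) :=
    ContinuousOn.comp_fract'' h1 (by norm_num)
  have h3 : stair = fun x => x - ((fun t : ℝ => t - max 0 (3 * t - 2)) ∘ Int.fract) x := by
    funext x
    simp only [stair, Function.comp_apply]
    have := Int.floor_add_fract x
    linarith
  rw [h3]
  exact continuous_id.sub h2

/-- The angle function with p steps. -/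
noncomputable def ang (p : ℕ) (x : ℝ) : ℝ := (1 + 1 / (p : ℝ)) * stair (p * x)

lemma ang_periodic {p : ℕ} (hp : 0 < p) :
    Function.Periodic (fun x : ℝ => Circle.exp (2 * π * ang p x)) 1 := by
  intro x
  have hp' : (p : ℝ) ≠ 0 := by positivity
  have h1 : ang p (x + 1) = ang p x + ((p : ℤ) + 1 : ℤ) := by
    unfold ang
    have h2 : (p : ℝ) * (x + 1) = p * x + ((p : ℤ) : ℝ) := by push_cast; ring
    rw [h2, stair_add_int]
    push_cast
    field_simp
  show Circle.exp (2 * π * ang p (x + 1)) = Circle.exp (2 * π * ang p x)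
  rw [h1, mul_add, Circle.exp_add, Circle.exp_two_pi_mul_int, mul_one]

/-- The multiplier of the staircase loop. -/
noncomputable def mult {p : ℕ} (hp : 0 < p) : B → Circle := (ang_periodic hp).lift

lemma mult_coe {p : ℕ} (hp : 0 < p) (x : ℝ) :
    mult hp (x : B) = Circle.exp (2 * π * ang p x) := rfl

lemma continuous_mult {p : ℕ} (hp : 0 < p) : Continuous (mult hp) := by
  have h1 : Continuous (fun x : ℝ => Circle.exp (2 * π * ang p x)) := by
    refine Circle.exp.continuous.comp ?_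
    unfold ang
    exact continuous_const.mul (continuous_const.mul
      (continuous_stair.comp (continuous_const.mul continuous_id)))
  exact h1.quotient_liftOn' _

/-- The second kind of loop. -/
theorem exists_loopD {δ : ℝ} (hδ : 0 < δ) : ∃ L : Lp, ∀ (a₁ a₂ : B) (κ₁ κ₂ l₁ l₂ : Circle),
    ∃ s : B, dist (L.f (a₁ + s) κ₁) l₁ < δ ∧ dist (L.f (a₂ + 2 • s) κ₂) l₂ < δ := by
  obtain ⟨p, hp⟩ := exists_nat_gt (2 * π / δ)
  have hp0 : (0 : ℝ) < p := lt_of_le_of_lt (by positivity) hp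
  have hpn : 0 < p := by exact_mod_cast hp0
  have hc := continuous_mult hpn
  refine ⟨⟨fun s z => mult hpn s * z, fun s z => (mult hpn s)⁻¹ * z,
    (hc.comp continuous_fst).mul continuous_snd,
    (hc.comp continuous_fst).inv.mul continuous_snd,
    fun s z => mul_inv_cancel_left _ _, fun s z => inv_mul_cancel_left _ _⟩, ?_⟩
  intro a₁ a₂ κ₁ κ₂ l₁ l₂
  obtain ⟨A₁, rfl⟩ := QuotientAddGroup.mk_surjective a₁
  obtain ⟨A₂, rfl⟩ := QuotientAddGroup.mk_surjective a₂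
  obtain ⟨b₁, hb₁⟩ := Circle.exp_surjective (l₁ * κ₁⁻¹)
  obtain ⟨b₂, hb₂⟩ := Circle.exp_surjective (l₂ * κ₂⁻¹)
  have hπ := Real.pi_pos
  -- the resting block
  set j : ℤ := ⌊(p : ℝ) * (b₁ / (2 * π))⌋ with hj
  set c : ℝ := A₂ - 2 * A₁ with hcdef
  set x₀ : ℝ := 2 * j + p * c with hx₀
  set i : ℤ := ⌈x₀ - 2 / 3⌉ with hi
  have hi1 : x₀ - 2 / 3 ≤ i := Int.le_ceil _
  have hi2 : (i : ℝ) < x₀ - 2 / 3 + 1 := Int.ceil_lt_add_one _
  set q : ℝ := 1 + 1 / (p : ℝ) with hq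
  have hq0 : 0 < q := by positivity
  set k : ℤ := ⌈q * i - b₂ / (2 * π)⌉ with hk
  have hk1 : q * i - b₂ / (2 * π) ≤ k := Int.le_ceil _
  have hk2 : (k : ℝ) < q * i - b₂ / (2 * π) + 1 := Int.ceil_lt_add_one _
  set v : ℝ := (k + b₂ / (2 * π)) / q with hv
  have hqv : q * v = k + b₂ / (2 * π) := by rw [hv]; field_simp
  have hv1 : (i : ℝ) ≤ v := by
    rw [hv, le_div_iff₀ hq0]; linarith
  have hv2 : v ≤ i + 1 := by
    rw [hv, div_le_iff₀ hq0]
    have : 1 ≤ q := by rw [hq]; have : 0 < 1 / (p : ℝ) := by positivity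
                       linarith
    nlinarith
  set x : ℝ := (v - i + 2) / 3 + i with hx
  have hx1 : (i : ℝ) + 2 / 3 ≤ x := by rw [hx]; linarith
  have hx2 : x ≤ i + 1 := by rw [hx]; linarith
  have hsx : stair x = v := by
    rw [stair_sweep i hx1 hx2, hx]; ring
  set u : ℝ := (x / p - c) / 2 with hu
  have h2u : (p : ℝ) * (2 * u + c) = x := by rw [hu]; field_simp; ring
  have hpu : (p : ℝ) * u = (x - p * c) / 2 := by rw [hu]; field_simp
  have hu1 : (j : ℝ) ≤ p * u := by rw [hpu]; linarith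
  have hu2 : (p : ℝ) * u ≤ j + 2 / 3 := by rw [hpu]; linarith
  have hang1 : ang p u = j + j / p := by
    unfold ang
    rw [stair_rest j hu1 hu2]
    ring
  have hang2 : ang p (2 * u + c) = k + b₂ / (2 * π) := by
    unfold ang
    rw [h2u, hsx]
    exact hqv
  refine ⟨((u - A₁ : ℝ) : B), ?_, ?_⟩
  · have e1 : (QuotientAddGroup.mk A₁ : B) + ((u - A₁ : ℝ) : B) = ((u : ℝ) : B) := by
      show ((A₁ : ℝ) : B) + ((u - A₁ : ℝ) : B) = ((u : ℝ) : B)
      rw [← AddCircle.coe_add]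
      congr 1
      ring
    show dist (mult hpn ((QuotientAddGroup.mk A₁ : B) + ((u - A₁ : ℝ) : B)) * κ₁) l₁ < δ
    rw [e1, mult_coe, hang1]
    have e2 : l₁ = κ₁ * Circle.exp b₁ := by rw [hb₁]; rw [mul_comm l₁, mul_inv_cancel_left]
    have e3 : Circle.exp (2 * π * (j + j / p)) = Circle.exp (2 * π * j / p) := by
      have : 2 * π * ((j : ℝ) + j / p) = 2 * π * j + 2 * π * j / p := by ring
      rw [this, Circle.exp_add, Circle.exp_two_pi_mul_int, one_mul]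
    rw [e2, e3, mul_comm, dist_circle_mul, circle_dist]
    have e4 : |2 * π * j / p - b₁| ≤ 2 * π / p := by
      have f1 : (j : ℝ) ≤ p * (b₁ / (2 * π)) := Int.floor_le _
      have f2 : p * (b₁ / (2 * π)) < j + 1 := Int.lt_floor_add_one _
      have f3 : 2 * π * j / p - b₁ = (2 * π / p) * (j - p * (b₁ / (2 * π))) := by
        field_simp
      rw [f3, abs_mul, abs_of_pos (by positivity : 0 < 2 * π / p)]
      have f4 : |(j : ℝ) - p * (b₁ / (2 * π))| ≤ 1 := abs_le.2 ⟨by linarith, by linarith⟩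
      calc 2 * π / p * |(j : ℝ) - p * (b₁ / (2 * π))| ≤ 2 * π / p * 1 :=
            mul_le_mul_of_nonneg_left f4 (by positivity)
        _ = 2 * π / p := mul_one _
    have e5 : 2 * π / p < δ := by
      rw [div_lt_iff₀ hδ] at hp
      rw [div_lt_iff₀ hp0]
      linarith
    exact lt_of_le_of_lt (exp_dist _ _) (lt_of_le_of_lt e4 e5)
  · have e1 : (QuotientAddGroup.mk A₂ : B) + 2 • ((u - A₁ : ℝ) : B) =
        ((2 * u + c : ℝ) : B) := by
      show ((A₂ : ℝ) : B) + 2 • ((u - A₁ : ℝ) : B) = ((2 * u + c : ℝ) : B)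
      rw [two_nsmul, ← AddCircle.coe_add, ← AddCircle.coe_add]
      congr 1
      rw [hcdef]
      ring
    show dist (mult hpn ((QuotientAddGroup.mk A₂ : B) + 2 • ((u - A₁ : ℝ) : B)) * κ₂) l₂ < δ
    have e2 : l₂ = Circle.exp b₂ * κ₂ := by rw [hb₂, inv_mul_cancel_right]
    have e3 : Circle.exp (2 * π * (k + b₂ / (2 * π))) = Circle.exp b₂ := by
      have : 2 * π * ((k : ℝ) + b₂ / (2 * π)) = 2 * π * k + b₂ := by field_simp
      rw [this, Circle.exp_add, Circle.exp_two_pi_mul_int, one_mul]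
    rw [e1, mult_coe, hang2, e3, e2, dist_self]
    exact hδ

end Pool.Agent.R299.PI
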